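import Pool.Agent.BLP.StmtsA

/-!
# Row A_SPL of squad BLP: splitting between two levels
-/

set_option autoImplicit false

namespace Pool.Agent.BLP.H48

open Pool.Agent.BLP

theorem a_spl (hena : EnaStmt) (hpab : PabStmt) (hbdd : BddStmt) (hexi : ExiStmt) : SplStmt := by
  intro b hb m k n s t hmk hkn hst
  have h1 : ∀ u, s ≤ u → u ≤ t → L b m s k u + L b (k + 1) u n t ≤ L b m s n t := by
    intro u hsu hut
    obtain ⟨τ, ⟨hτ1, hτ2, hτ3⟩, hτE⟩ := hexi b hb m k s u hmk hsu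
    obtain ⟨σ, ⟨hσ1, hσ2, hσ3⟩, hσE⟩ := hexi b hb (k + 1) n u t (by omega) hut
    have hσ1' : σ k = u := by
      have e : k + 1 - 1 = k := by omega
      rwa [e] at hσ1
    obtain ⟨ρ, hρ⟩ : ∃ ρ : ℤ → ℝ, ρ = fun r => if r ≤ k then τ r else σ r := ⟨_, rfl⟩
    have hρ1 : ∀ r, r ≤ k → ρ r = τ r := fun r h => by rw [hρ]; exact if_pos h
    have hρ2 : ∀ r, k < r → ρ r = σ r := fun r h => by rw [hρ]; exact if_neg (by omega)
    have hρ2' : ∀ r, k ≤ r → ρ r = σ r := by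
      intro r h
      rcases eq_or_lt_of_le h with h | h
      · rw [← h, hρ1 k le_rfl, hτ2, hσ1']
      · exact hρ2 r h
    have hP : Pa m s n t ρ := by
      refine ⟨?_, ?_, ?_⟩
      · rw [hρ1 _ (by omega), hτ1]
      · rw [hρ2 _ (by omega), hσ2]
      · intro r hr1 hr2
        rcases le_or_gt r k with h | h
        · rw [hρ1 r h, hρ1 (r - 1) (by omega)]
          exact hτ3 r hr1 h
        · rw [hρ2' r (by omega), hρ2' (r - 1) (by omega)]
          exact hσ3 r (by omega) hr2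
    have e1 := (hena b ρ m n).1 k (by omega) (by omega)
    have e2 := (hena b τ m k).2.2 ρ (fun r _ h => hρ1 r h)
    have e3 := (hena b σ (k + 1) n).2.2 ρ (fun r h _ => hρ2' r (by omega))
    have e4 := (hbdd b hb m n s t (by omega) hst).2.1 ρ hP
    rw [e1, e2, e3, hτE, hσE] at e4
    exact e4
  refine ⟨h1, ?_⟩
  obtain ⟨τ, hτ, hτE⟩ := hexi b hb m n s t (by omega) hst
  have hP := hτ
  obtain ⟨hτ1, hτ2, hτ3⟩ := hτ
  have hu := (hpab m n s t τ hP (by omega)).2.1 k (by omega) (by omega)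
  refine ⟨τ k, hu.1, hu.2, le_antisymm ?_ (h1 _ hu.1 hu.2)⟩
  have e1 := (hena b τ m n).1 k (by omega) (by omega)
  have e2 := (hbdd b hb m k s (τ k) hmk hu.1).2.1 τ ⟨hτ1, rfl, fun r h h' => hτ3 r h (by omega)⟩
  have e3 := (hbdd b hb (k + 1) n (τ k) t (by omega) hu.2).2.1 τ
    ⟨by rw [show k + 1 - 1 = k by omega], hτ2, fun r h h' => hτ3 r (by omega) h'⟩
  rw [← hτE, e1]
  exact add_le_add e2 e3

end Pool.Agent.BLP.H48
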