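import Pool.Agent.BLP.StmtsM

/-!
# Row M_BLK of squad BLP: block law of large numbers in `L¹`
-/

set_option autoImplicit false

namespace Pool.Agent.BLP.H48

open Pool.Agent.BLP MeasureTheory ProbabilityTheory Filter Topology Finset
open scoped ENNReal

/-- Second moment bound for the first absolute moment. -/
theorem abs_sq_le {X : Type} [MeasurableSpace X] (μ : Measure X) [IsProbabilityMeasure μ]
    (Z : X → ℝ) (hZ : MemLp Z 2 μ) : (∫ x, |Z x| ∂μ) ^ 2 ≤ ∫ x, Z x ^ 2 ∂μ := by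
  have h1 : MemLp (fun x => |Z x|) 2 μ := hZ.abs
  have h2 := variance_eq_sub h1
  have h3 := variance_nonneg (fun x => |Z x|) μ
  rw [h2] at h3
  have h4 : ∫ x, ((fun x => |Z x|) ^ 2) x ∂μ = ∫ x, Z x ^ 2 ∂μ := by
    apply integral_congr_ae
    exact Filter.Eventually.of_forall fun x => by
      show |Z x| ^ 2 = Z x ^ 2
      exact sq_abs _
  rw [h4] at h3
  linarith

/-- `L¹` law of large numbers for pairwise independent variables with the same mean and the
same variance. -/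
theorem lln_aux {X : Type} [MeasurableSpace X] (μ : Measure X) [IsProbabilityMeasure μ]
    (Y : ℕ → X → ℝ) (g v : ℝ) (h2 : ∀ j, MemLp (Y j) 2 μ) (hg : ∀ j, ∫ x, Y j x ∂μ = g)
    (hv : ∀ j, variance (Y j) μ = v) (hi : ∀ i j, i ≠ j → IndepFun (Y i) (Y j) μ) :
    Tendsto (fun k : ℕ => ∫ x, |(∑ j ∈ range k, Y j x) / k - g| ∂μ) atTop (𝓝 0) := by
  have hbd : ∀ k : ℕ, 1 ≤ k → ∫ x, |(∑ j ∈ range k, Y j x) / k - g| ∂μ ≤ √(v / k) := by
    intro k hk
    have hk0 : (k:ℝ) ≠ 0 := by positivity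
    have hS2 : MemLp (∑ j ∈ range k, Y j) 2 μ := memLp_finsetSum' _ (fun j _ => h2 j)
    have hvar : variance (∑ j ∈ range k, Y j) μ = k * v := by
      rw [IndepFun.variance_sum (fun j _ => h2 j) (fun i _ j _ hij => hi i j hij)]
      rw [Finset.sum_congr rfl (fun j _ => hv j), Finset.sum_const, card_range, nsmul_eq_mul]
    have hmean : ∫ x, (∑ j ∈ range k, Y j) x ∂μ = k * g := by
      have e : ∀ x, (∑ j ∈ range k, Y j) x = ∑ j ∈ range k, Y j x := fun x =>
        Finset.sum_apply x _ _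
      simp only [e]
      rw [integral_finsetSum _ (fun j _ => (h2 j).integrable (by norm_num))]
      rw [Finset.sum_congr rfl (fun j _ => hg j), Finset.sum_const, card_range, nsmul_eq_mul]
    rw [variance_eq_integral hS2.aestronglyMeasurable.aemeasurable, hmean] at hvar
    have hZ : MemLp (fun x => (∑ j ∈ range k, Y j x) / k - g) 2 μ := by
      have e : (fun x => (∑ j ∈ range k, Y j x) / (k:ℝ) - g) =
          fun x => (k:ℝ)⁻¹ * (∑ j ∈ range k, Y j) x - g := by
        funext x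
        rw [Finset.sum_apply, div_eq_inv_mul]
      rw [e]
      exact (hS2.const_mul _).sub (memLp_const g)
    have h3 := abs_sq_le μ _ hZ
    have h4 : ∫ x, ((∑ j ∈ range k, Y j x) / k - g) ^ 2 ∂μ = v / k := by
      have e : ∀ x, ((∑ j ∈ range k, Y j x) / (k:ℝ) - g) ^ 2 =
          ((k:ℝ) ^ 2)⁻¹ * ((∑ j ∈ range k, Y j) x - k * g) ^ 2 := by
        intro x
        rw [Finset.sum_apply]
        field_simp
      simp only [e]
      rw [integral_const_mul, hvar]
      field_simp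
    rw [h4] at h3
    exact Real.le_sqrt_of_sq_le h3
  have hlim : Tendsto (fun k : ℕ => √(v / k)) atTop (𝓝 0) := by
    have h1 : Tendsto (fun k : ℕ => v / k) atTop (𝓝 0) := tendsto_const_div_atTop_nhds_zero_nat v
    have h2 := (Real.continuous_sqrt.tendsto 0).comp h1
    rw [Real.sqrt_zero] at h2
    exact h2
  refine squeeze_zero' (Filter.Eventually.of_forall fun k =>
    integral_nonneg fun x => abs_nonneg _) ?_ hlim
  filter_upwards [eventually_ge_atTop 1] with k hk using hbd k hk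

/-- **M_BLK**: the block law of large numbers. -/
theorem m_blk (hrep : RepStmt) (htrf : TrfStmt) (hint : IntStmt) : BlkStmt := by
  intro X _ μ B hSp m hm
  have := hSp.prob
  obtain ⟨Y, hY⟩ : ∃ Y : ℕ → X → ℝ, Y = fun (j : ℕ) x =>
    L (B x) ((j : ℤ) * m) ((j : ℝ) * m) (((j : ℤ) + 1) * m - 1) (((j : ℝ) + 1) * m) := ⟨_, rfl⟩
  have hYx : ∀ j x, Y j x =
    L (B x) ((j : ℤ) * m) ((j : ℝ) * m) (((j : ℤ) + 1) * m - 1) (((j : ℝ) + 1) * m) :=
    fun j x => by rw [hY]
  obtain ⟨W, hW⟩ : ∃ W : X → ℝ, W = fun x => L (B x) 0 0 ((m : ℤ) - 1) m := ⟨_, rfl⟩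
  have hW2 : MemLp W 2 μ := by rw [hW]; exact hint X μ B hSp _ _ _ _
  have hid : ∀ j, IdentDistrib (Y j) W μ μ := by
    intro j
    obtain ⟨T, hT, hTx⟩ := htrf X μ B hSp ((j : ℤ) * m) ((j : ℚ) * m)
    have h1 : Y j =ᵐ[μ] W ∘ T := by
      filter_upwards [hTx] with x hx
      have h2 := hx 0 0 ((m : ℤ) - 1) m
      rw [hYx, Function.comp, hW]
      simp only
      rw [h2]
      have e1 : (0 : ℤ) + (j : ℤ) * m = (j : ℤ) * m := by ring
      have e2 : (m : ℤ) - 1 + (j : ℤ) * m = ((j : ℤ) + 1) * m - 1 := by ring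
      have e3 : (0 : ℝ) + (((j : ℚ) * m : ℚ) : ℝ) = (j : ℝ) * m := by push_cast; ring
      have e4 : (m : ℝ) + (((j : ℚ) * m : ℚ) : ℝ) = ((j : ℝ) + 1) * m := by push_cast; ring
      rw [e1, e2, e3, e4]
    have hWm : AEMeasurable W (μ.map T) := by
      rw [hT.map_eq]; exact hW2.aestronglyMeasurable.aemeasurable
    refine ⟨?_, hW2.aestronglyMeasurable.aemeasurable, ?_⟩
    · exact (hWm.comp_measurable hT.measurable).congr h1.symm
    · rw [Measure.map_congr h1, ← AEMeasurable.map_map_of_aemeasurable hWm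
        hT.measurable.aemeasurable, hT.map_eq]
  have h2 : ∀ j, MemLp (Y j) 2 μ := by
    intro j
    rw [hY]
    exact hint X μ B hSp _ _ _ _
  have hg : ∀ j, ∫ x, Y j x ∂μ = gg μ B m := by
    intro j
    rw [(hid j).integral_eq, hW]
    rfl
  have hv : ∀ j, variance (Y j) μ = variance W μ := fun j => (hid j).variance_eq
  have hmeas : ∀ r : ℤ, Measurable (fun (x : X) => fun q : ℚ => B x r q) := fun r =>
    measurable_pi_iff.2 fun q => hSp.mea r q
  have hm' : (1:ℤ) ≤ (m : ℤ) := by exact_mod_cast hm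
  have hi : ∀ i j, i ≠ j → IndepFun (Y i) (Y j) μ := by
    intro i j hij
    have hrep' : ∀ l : ℕ, ∃ Φ : (↥(Finset.Icc ((l:ℤ) * m) (((l : ℤ) + 1) * m - 1)) → ℚ → ℝ) → ℝ,
        Measurable Φ ∧ Y l = Φ ∘ fun x => fun r => fun q : ℚ => B x r q := by
      intro l
      have e0 : (((l : ℤ) + 1) * m - 1) = (l:ℤ) * m + m - 1 := by ring
      obtain ⟨Φ, hΦ, h⟩ := hrep ((l:ℤ) * m) (((l : ℤ) + 1) * m - 1) ((l : ℚ) * m)
        (((l : ℚ) + 1) * m) (by rw [e0]; linarith) (by
          have : (0:ℚ) ≤ m := by positivity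
          nlinarith)
      refine ⟨Φ, hΦ, ?_⟩
      funext x
      rw [Function.comp, hYx]
      have e1 := h (B x) (hSp.cts x)
      have e3 : (((l : ℚ) * m : ℚ) : ℝ) = (l : ℝ) * m := by push_cast; ring
      have e4 : ((((l : ℚ) + 1) * m : ℚ) : ℝ) = ((l : ℝ) + 1) * m := by push_cast; ring
      rw [e3, e4] at e1
      exact e1
    obtain ⟨Φ, hΦ, hΦe⟩ := hrep' i
    obtain ⟨Ψ, hΨ, hΨe⟩ := hrep' j
    have hdisj : Disjoint (Finset.Icc ((i:ℤ) * m) (((i : ℤ) + 1) * m - 1))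
        (Finset.Icc ((j:ℤ) * m) (((j : ℤ) + 1) * m - 1)) := by
      rw [Finset.disjoint_left]
      intro r hr hr'
      rw [Finset.mem_Icc] at hr hr'
      rcases lt_or_gt_of_ne hij with h | h
      · have h1 : ((i:ℤ) + 1) * m ≤ (j:ℤ) * m :=
          mul_le_mul_of_nonneg_right (by exact_mod_cast h) (by linarith)
        linarith [hr.2, hr'.1]
      · have h1 : ((j:ℤ) + 1) * m ≤ (i:ℤ) * m :=
          mul_le_mul_of_nonneg_right (by exact_mod_cast h) (by linarith)
        linarith [hr.1, hr'.2]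
    have hind := iIndepFun.indepFun_finset _ _ hdisj hSp.ind hmeas
    rw [hΦe, hΨe]
    exact hind.comp hΦ hΨ
  have key := lln_aux μ Y (gg μ B m) (variance W μ) h2 hg hv hi
  have e : ∀ k : ℕ, ∫ x, |SB (B x) m k / k - gg μ B m| ∂μ =
      ∫ x, |(∑ j ∈ range k, Y j x) / k - gg μ B m| ∂μ := by
    intro k
    rw [hY]
    rfl
  simp only [e]
  exact key

end Pool.Agent.BLP.H48
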